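import Mathlib

set_option autoImplicit false
open MeasureTheory Set Filter Topology

namespace Pool.Agent.Results.MP_8ac988_an.NotOneStep

/-- Følner sequences of finite subsets of `{1,2,...}²`. -/
def IsFolner (I : ℕ → Finset (ℕ × ℕ)) : Prop :=
  (∀ j, ∀ p ∈ I j, 1 ≤ p.1 ∧ 1 ≤ p.2) ∧ (∀ j, (I j).Nonempty) ∧ ∀ k : ℤ × ℤ,
    Tendsto (fun j => ((symmDiff ((I j).image fun p => ((p.1 : ℤ) + k.1, (p.2 : ℤ) + k.2))
      ((I j).image fun p => ((p.1 : ℤ), (p.2 : ℤ)))).card : ℝ) / (I j).card) atTop (𝓝 0)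

/-- `‖a‖₂ ≤ ε` for the uniform seminorm. -/
def NormLe (a : ℕ × ℕ → ℂ) (ε : ℝ) : Prop :=
  ∀ I, IsFolner I → limsup (fun j => (∑ p ∈ I j, ‖a p‖ ^ 2) / (I j).card) atTop ≤ ε ^ 2

/-- Sequences `Ψ(τ₁^m τ₂^n Γ)` with `G` an abelian topological group and `G/Γ` compact; this class
contains every 1-step nilsequence in two variables. -/
def IsNil1 (ψ : ℕ × ℕ → ℂ) : Prop :=
  ∃ (G : Type) (_ : CommGroup G) (_ : TopologicalSpace G) (_ : IsTopologicalGroup G)
    (Γ : Subgroup G) (_ : CompactSpace (G ⧸ Γ)) (Ψ : C(G ⧸ Γ, ℂ)) (τ₁ τ₂ : G),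
    ∀ m n : ℕ, ψ (m, n) = Ψ ((τ₁ ^ m * τ₂ ^ n : G) : G ⧸ Γ)

abbrev X : Type := UnitAddCircle × UnitAddCircle

noncomputable def al : UnitAddCircle := ((√2 : ℝ) : UnitAddCircle)

noncomputable def S (k : ℤ) (p : X) : X := (p.1 + k • al, p.2 + ((2 * k) • p.1 + (k ^ 2) • al))

lemma S_add (k l : ℤ) (p : X) : S k (S l p) = S (k + l) p := by
  simp only [S, Prod.mk.injEq]
  constructor <;> module

lemma S_zero (p : X) : S 0 p = p := by simp [S]

lemma S_cont (k : ℤ) : Continuous (S k) := by unfold S; fun_prop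

lemma S_mp (k : ℤ) : MeasurePreserving (S k) volume volume :=
  (measurePreserving_add_right volume (k • al)).skew_product
    (g := fun x y : UnitAddCircle => y + ((2 * k) • x + (k ^ 2) • al))
    (Continuous.measurable (by fun_prop))
    (Eventually.of_forall fun x => (measurePreserving_add_right volume _).map_eq)

noncomputable def E (k : ℤ) : X ≃ᵐ X where
  toFun := S k
  invFun := S (-k)
  left_inv p := by rw [S_add, neg_add_cancel, S_zero]
  right_inv p := by rw [S_add, add_neg_cancel, S_zero]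
  measurable_toFun := (S_cont k).measurable
  measurable_invFun := (S_cont (-k)).measurable

lemma S_iter (k : ℤ) (n : ℕ) (p : X) : (S k)^[n] p = S (n * k) p := by
  induction n with
  | zero => simp [S_zero]
  | succ n ih => rw [Function.iterate_succ_apply', ih, S_add]; congr 1; push_cast; ring

noncomputable def e (x : UnitAddCircle) : ℂ := fourier 1 x

lemma e_add (x y : UnitAddCircle) : e (x + y) = e x * e y := by
  simp [e, fourier_apply, AddCircle.toCircle_add]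

lemma e_norm (x : UnitAddCircle) : ‖e x‖ = 1 := by simp [e, fourier_apply]

lemma e_zero : e 0 = 1 := by simp [e]

lemma e_nsmul (n : ℕ) (x : UnitAddCircle) : e (n • x) = e x ^ n := by
  induction n with
  | zero => simp [e_zero]
  | succ n ih => rw [succ_nsmul, e_add, ih, pow_succ]

lemma e_ne (h : ℕ) (hh : 0 < h) : e (h • al) ≠ 1 := by
  intro c
  have : AddCircle.toCircle (h • al) = 1 := by
    apply Subtype.ext
    simpa [e, fourier_apply] using c
  have h0 : h • al = 0 := AddCircle.injective_toCircle one_ne_zero (by simpa using this)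
  rw [al, ← AddCircle.coe_nsmul, AddCircle.coe_eq_zero_iff] at h0
  obtain ⟨n, hn⟩ := h0
  have := (irrational_sqrt_two.natCast_mul hh.ne').ne_int n
  apply this
  simpa using hn.symm

def box (j : ℕ) : Finset (ℕ × ℕ) := Finset.Ioc 0 (j + 1) ×ˢ Finset.Ioc 0 (j + 1)

lemma box_card (j : ℕ) : ((box j).card : ℝ) = ((j : ℝ) + 1) ^ 2 := by
  simp [box, sq]

lemma box_folner : IsFolner box := by
  refine ⟨fun j p hp => ?_, fun j => ⟨(1, 1), by simp [box]⟩, fun k => ?_⟩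
  · simp only [box, Finset.mem_product, Finset.mem_Ioc] at hp
    omega
  obtain ⟨K, h1, h2⟩ : ∃ K : ℕ, |k.1| ≤ K ∧ |k.2| ≤ K :=
    ⟨k.1.natAbs + k.2.natAbs, by rw [Int.abs_eq_natAbs]; omega, by rw [Int.abs_eq_natAbs]; omega⟩
  rw [abs_le] at h1 h2
  refine squeeze_zero' (g := fun j : ℕ => (8 * K : ℝ) * (1 / ((j : ℝ) + 1)))
    (Eventually.of_forall fun j => by positivity) ?_
    (by simpa using tendsto_one_div_add_atTop_nhds_zero_nat.const_mul (8 * K : ℝ))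
  filter_upwards [eventually_ge_atTop (2 * K)] with j hj
  let B : Finset (ℤ × ℤ) := Finset.Ioc (-K : ℤ) (j + 1 + K) ×ˢ Finset.Ioc (-K : ℤ) (j + 1 + K)
  let C : Finset (ℤ × ℤ) := Finset.Ioc (K : ℤ) (j + 1 - K) ×ˢ Finset.Ioc (K : ℤ) (j + 1 - K)
  have im (l : ℤ × ℤ) (q : ℤ × ℤ) : q ∈ (box j).image (fun p => ((p.1 : ℤ) + l.1, (p.2 : ℤ) + l.2)) ↔
      (l.1 < q.1 ∧ q.1 ≤ j + 1 + l.1) ∧ (l.2 < q.2 ∧ q.2 ≤ j + 1 + l.2) := by
    simp only [box, Finset.mem_image, Finset.mem_product, Finset.mem_Ioc]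
    constructor
    · rintro ⟨p, hp, rfl⟩
      simp only
      omega
    · intro h
      exact ⟨((q.1 - l.1).toNat, (q.2 - l.2).toNat), by simp only; omega,
        Prod.ext (by simp only; omega) (by simp only; omega)⟩
  have hs : symmDiff ((box j).image fun p => ((p.1 : ℤ) + k.1, (p.2 : ℤ) + k.2))
      ((box j).image fun p => ((p.1 : ℤ), (p.2 : ℤ))) ⊆ B \ C := by
    intro q hq
    have i0 := im 0 q
    simp only [Prod.fst_zero, Prod.snd_zero, add_zero] at i0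
    rw [Finset.mem_symmDiff, im, i0] at hq
    simp only [B, C, Finset.mem_sdiff, Finset.mem_product, Finset.mem_Ioc]
    omega
  have hCB : C ⊆ B := by
    intro q
    simp only [B, C, Finset.mem_product, Finset.mem_Ioc]
    omega
  have h3 := Finset.card_le_card hs
  have h4 := Finset.card_sdiff_add_card_eq_card hCB
  have cB : B.card = (j + 1 + 2 * K) * (j + 1 + 2 * K) := by
    simp only [B, Finset.card_product, Int.card_Ioc]
    congr 1 <;> omega
  obtain ⟨d, hd⟩ : ∃ d, j + 1 = d + 2 * K := ⟨j + 1 - 2 * K, by omega⟩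
  have cC : C.card = d * d := by
    simp only [C, Finset.card_product, Int.card_Ioc]
    congr 1 <;> omega
  have h5 : (B \ C).card = 8 * K * (j + 1) := by
    rw [cB, cC, hd] at h4
    rw [hd]
    nlinarith
  rw [h5] at h3
  rw [box_card, div_le_iff₀ (by positivity)]
  refine (Nat.cast_le.2 h3).trans (le_of_eq ?_)
  push_cast
  field_simp

noncomputable def a (p : ℕ × ℕ) : ℂ := e ((2 * ((p.1 : ℤ) - p.2) ^ 2) • al)

lemma row (h : ℕ) (hh : 0 < h) : ∃ C : ℝ, ∀ N n : ℕ,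
    2 * N - C ≤ ∑ m ∈ Finset.Ioc 0 N, ‖a (m + h, n) - a (m, n)‖ ^ 2 := by
  let z := e ((4 * h) • al)
  have hz : z ≠ 1 := e_ne _ (by omega)
  have hz1 : ‖z‖ = 1 := e_norm _
  refine ⟨2 * (2 / ‖z - 1‖ + 1), fun N n => ?_⟩
  let w := e ((2 * (h : ℤ) ^ 2 - 4 * h * n) • al)
  have e1 (m : ℕ) : ‖a (m + h, n) - a (m, n)‖ ^ 2 = 2 - 2 * (w * z ^ m).re := by
    have : a (m + h, n) = a (m, n) * (w * z ^ m) := by
      simp only [a, w, z, ← e_nsmul, ← e_add]
      congr 1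
      push_cast
      module
    have n1 : ‖w * z ^ m‖ = 1 := by rw [norm_mul, norm_pow, hz1, e_norm]; simp
    rw [this, ← mul_sub_one, norm_mul, a, e_norm, one_mul, ← Complex.normSq_eq_norm_sq,
      Complex.normSq_sub, Complex.normSq_eq_norm_sq, n1]
    simp
    ring
  simp only [e1, Finset.sum_sub_distrib, Finset.sum_const, Nat.card_Ioc, nsmul_eq_mul,
    ← Finset.mul_sum, ← Complex.re_sum]
  have e2 : ∑ m ∈ Finset.Ioc 0 N, z ^ m = (z ^ (N + 1) - 1) / (z - 1) - 1 := by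
    rw [← geom_sum_eq hz, Finset.range_eq_Ico, Finset.sum_eq_sum_Ico_succ_bot (by omega)]
    simp only [pow_zero, add_sub_cancel_left]
    rfl
  have e3 : ‖w * ∑ m ∈ Finset.Ioc 0 N, z ^ m‖ ≤ 2 / ‖z - 1‖ + 1 := by
    rw [norm_mul, e_norm, one_mul, e2]
    refine (norm_sub_le _ _).trans (add_le_add ?_ (by simp))
    rw [norm_div]
    refine div_le_div_of_nonneg_right ((norm_sub_le _ _).trans ?_) (norm_nonneg _)
    rw [norm_pow, hz1]; norm_num
  have := (Complex.re_le_norm _).trans e3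
  simp only [Nat.sub_zero]
  linarith

lemma not_approx (ψ : ℕ × ℕ → ℂ) (hψ : IsNil1 ψ) : ¬ NormLe (fun p => a p - ψ p) (1 / 10) := by
  intro H
  obtain ⟨G, _, _, _, Γ, _, Ψ, τ₁, τ₂, hψ⟩ := hψ
  have hU : ∀ᶠ u in 𝓝 (1 : G ⧸ Γ), ∀ y ∈ (univ : Set (G ⧸ Γ)), ‖Ψ (u * y) - Ψ y‖ < 1 / 10 := by
    refine isCompact_univ.eventually_forall_of_forall_eventually fun y _ => ?_
    have : Continuous fun q : (G ⧸ Γ) × (G ⧸ Γ) => ‖Ψ (q.1 * q.2) - Ψ q.2‖ := by fun_prop
    exact this.continuousAt.eventually_lt continuousAt_const (by simp)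
  obtain ⟨h, hh1, hh⟩ := (((mapClusterPt_one_atTop_pow (τ₁ : G ⧸ Γ)).frequently hU).and_eventually
    (eventually_gt_atTop 0)).exists
  have hp (m n : ℕ) : ‖ψ (m + h, n) - ψ (m, n)‖ < 1 / 10 := by
    rw [hψ, hψ]
    convert hh1 ((τ₁ ^ m * τ₂ ^ n : G) : G ⧸ Γ) trivial using 4
    rw [← QuotientGroup.mk_pow, ← QuotientGroup.mk_mul, pow_add, mul_comm (τ₁ ^ m), mul_assoc]
  obtain ⟨C, hC⟩ := row h hh
  have hb : IsBoundedUnder (· ≤ ·) atTop
      (fun j => (∑ p ∈ box j, ‖a p - ψ p‖ ^ 2) / ((box j).card : ℝ)) := by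
    refine isBoundedUnder_of ⟨(1 + ‖Ψ‖) ^ 2, fun j => ?_⟩
    rw [div_le_iff₀ (by rw [box_card]; positivity), mul_comm, ← nsmul_eq_mul]
    refine Finset.sum_le_card_nsmul _ _ _ fun p _ => pow_le_pow_left₀ (norm_nonneg _) ?_ 2
    refine (norm_sub_le _ _).trans (add_le_add (e_norm _).le ?_)
    rw [show p = (p.1, p.2) from rfl, hψ]
    exact Ψ.norm_coe_le_norm _
  obtain ⟨J, hJ⟩ := eventually_atTop.1
    (eventually_lt_of_limsup_lt ((H box box_folner).trans_lt (show _ < (1 / 50 : ℝ) by norm_num)) hb)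
  obtain ⟨j0, hj0⟩ := exists_nat_gt C
  obtain ⟨j, j1, j2, j3⟩ : ∃ j, J ≤ j ∧ h ≤ j ∧ j0 ≤ j := ⟨J + h + j0, by omega, by omega, by omega⟩
  have b1 := hJ j j1
  have b2 := hJ (j + h) (by omega)
  rw [div_lt_iff₀ (by rw [box_card]; positivity), box_card] at b1 b2
  have b3 : ∑ p ∈ box j, ‖a (p.1 + h, p.2) - ψ (p.1 + h, p.2)‖ ^ 2 ≤
      ∑ p ∈ box (j + h), ‖a p - ψ p‖ ^ 2 := by
    rw [← Finset.sum_image (s := box j) (g := fun p : ℕ × ℕ => (p.1 + h, p.2))
      (f := fun p => ‖a p - ψ p‖ ^ 2) (fun p _ q _ hpq => by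
        simp only [Prod.mk.injEq] at hpq
        exact Prod.ext (by omega) hpq.2)]
    refine Finset.sum_le_sum_of_subset_of_nonneg (fun q hq => ?_) fun _ _ _ => by positivity
    obtain ⟨p, hp, rfl⟩ := Finset.mem_image.1 hq
    simp only [box, Finset.mem_product, Finset.mem_Ioc] at hp ⊢
    omega
  have b4 : ∑ p ∈ box j, ‖a (p.1 + h, p.2) - a p‖ ^ 2 ≤ ∑ p ∈ box j,
      (3 * ‖a (p.1 + h, p.2) - ψ (p.1 + h, p.2)‖ ^ 2 + 3 * ‖a p - ψ p‖ ^ 2 + 3 / 100) := by
    refine Finset.sum_le_sum fun p _ => ?_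
    have t1 : ‖a (p.1 + h, p.2) - a p‖ ≤ ‖a (p.1 + h, p.2) - ψ (p.1 + h, p.2)‖ + ‖a p - ψ p‖ + 1 / 10 := by
      have : a (p.1 + h, p.2) - a p = (a (p.1 + h, p.2) - ψ (p.1 + h, p.2)) - (a p - ψ p) +
          (ψ (p.1 + h, p.2) - ψ (p.1, p.2)) := by ring
      rw [this]
      exact (norm_add_le _ _).trans (add_le_add (norm_sub_le _ _) (hp _ _).le)
    refine (pow_le_pow_left₀ (norm_nonneg _) t1 2).trans ?_
    nlinarith [sq_nonneg (‖a (p.1 + h, p.2) - ψ (p.1 + h, p.2)‖ - ‖a p - ψ p‖),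
      sq_nonneg (‖a (p.1 + h, p.2) - ψ (p.1 + h, p.2)‖ - 1 / 10), sq_nonneg (‖a p - ψ p‖ - 1 / 10)]
  have b5 : ((j : ℝ) + 1) * (2 * ((j : ℝ) + 1) - C) ≤ ∑ p ∈ box j, ‖a (p.1 + h, p.2) - a p‖ ^ 2 := by
    rw [box, Finset.sum_product_right]
    have := Finset.card_nsmul_le_sum (Finset.Ioc 0 (j + 1)) _ _ fun n _ => hC (j + 1) n
    simpa using this
  simp only [Finset.sum_add_distrib, ← Finset.mul_sum, Finset.sum_const, nsmul_eq_mul, box_card] at b4
  have c1 : (h : ℝ) ≤ j := by exact_mod_cast j2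
  have c2 : (j0 : ℝ) ≤ j := by exact_mod_cast j3
  have c3 : (0 : ℝ) ≤ h := by positivity
  push_cast at b2
  have c4 : ((j : ℝ) + h + 1) ^ 2 ≤ 4 * ((j : ℝ) + 1) ^ 2 := by nlinarith
  have c5 : ((j : ℝ) + 1) * C ≤ ((j : ℝ) + 1) ^ 2 := by nlinarith
  nlinarith

/-- A system with two commuting invertible maps and bounded `f, g, h` whose correlation sequence
`∫ f · T₁^m T₂^n g · T₁^n T₂^m h` is not an approximate 1-step nilsequence in two variables. -/
theorem result : ∃ (Y : Type) (_ : MeasurableSpace Y) (_ : StandardBorelSpace Y) (μ : Measure Y)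
    (_ : IsProbabilityMeasure μ) (T₁ T₂ : Y ≃ᵐ Y) (f g h : Y → ℂ),
    MeasurePreserving T₁ μ μ ∧ MeasurePreserving T₂ μ μ ∧ (∀ y, T₁ (T₂ y) = T₂ (T₁ y)) ∧
    Measurable f ∧ Measurable g ∧ Measurable h ∧ (∀ y, ‖f y‖ ≤ 1 ∧ ‖g y‖ ≤ 1 ∧ ‖h y‖ ≤ 1) ∧
    ¬ ∀ ε > 0, ∃ ψ : ℕ × ℕ → ℂ, IsNil1 ψ ∧ NormLe (fun p =>
      (∫ y, f y * g (T₁^[p.1] (T₂^[p.2] y)) * h (T₁^[p.2] (T₂^[p.1] y)) ∂μ) - ψ p) ε := by
  have hc : Continuous e := (fourier 1).continuous
  have : IsProbabilityMeasure (volume : Measure UnitAddCircle) := ⟨UnitAddCircle.measure_univ⟩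
  have : IsProbabilityMeasure (volume : Measure X) :=
    inferInstanceAs (IsProbabilityMeasure ((volume : Measure UnitAddCircle).prod volume))
  refine ⟨X, inferInstance, inferInstance, volume, inferInstance, E 1, E (-1),
    fun y => e ((-2 : ℤ) • y.2), fun y => e y.2, fun y => e y.2, S_mp 1, S_mp (-1),
    fun y => ?_, Continuous.measurable (by fun_prop), Continuous.measurable (by fun_prop),
    Continuous.measurable (by fun_prop), fun y => ⟨(e_norm _).le, (e_norm _).le, (e_norm _).le⟩,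
    fun H => ?_⟩
  · show S 1 (S (-1) y) = S (-1) (S 1 y)
    rw [S_add, S_add, add_comm]
  · obtain ⟨ψ, h1, h2⟩ := H (1 / 10) (by norm_num)
    refine not_approx ψ h1 ?_
    convert h2 using 3 with p
    have (y : X) : e ((-2 : ℤ) • y.2) * e ((S 1)^[p.1] ((S (-1))^[p.2] y)).2 *
        e ((S 1)^[p.2] ((S (-1))^[p.1] y)).2 = a p := by
      simp only [S_iter, S_add]
      simp only [S, a, ← e_add]
      congr 1
      module
    refine Eq.trans ?_ (integral_congr_ae (Eventually.of_forall fun y => (this y).symm))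
    simp

end Pool.Agent.Results.MP_8ac988_an.NotOneStep
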